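import Pool.Agent.W738.RZ.Main

/-!
# MP_057a77_an, Q1: Rioul's conjecture on Zak transforms of refinable functions

The definitions `e`, `zak`, `symbol`, `Refinable`, `SymmetricZeros` are in
`Pool/Agent/W738/RZ/Defs.lean`.

The counterexample is `φ(t) = max 0 (1 - |t| / 3)`, whose symbol is `1 + cos (6 π ξ)`. The reason
behind it is `Pool.Agent.W738.RZ.zak_eq_zero_of_cycle`: if `ξ` is not an integer, `2 ^ p ξ - ξ` is an
integer and the symbol of the continuous compactly supported refinable function `φ` vanishes at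
`2 ^ j ξ + 1 / 2` for `j < p`, then `Zφ(t, ξ) = 0` for every `t`. Here `ξ = 1 / 3` and `p = 2`.
-/

set_option autoImplicit false

namespace Pool.Agent.Results.MP_057a77_an.RioulFails

open Pool.Agent.W738.RZ

/-- The nonzero continuous compactly supported function `φ(t) = max 0 (1 - |t| / 3)` satisfies a
dilation equation `φ(t/2) = ∑ d_k φ(t - k)` with finitely many coefficients whose symbol has no pair
of symmetric zeros, but `Zφ(t, 1/3) = 0` for every `t`. Hence no `t₀` satisfies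
`inf_ξ |Zφ(t₀, ξ)| > 0`: Rioul's conjecture is false. -/
theorem result : ∃ (φ : ℝ → ℂ) (d : ℤ →₀ ℂ), (∀ t : ℝ, φ t = ((max 0 (1 - |t| / 3) : ℝ) : ℂ)) ∧
    Refinable φ d ∧ ¬ SymmetricZeros d ∧ (∀ t : ℝ, zak φ t (1 / 3) = 0) ∧
    ¬ ∃ t₀ : ℝ, 0 < ⨅ ξ : ℝ, ‖zak φ t₀ ξ‖ := by
  refine ⟨hat, hatCoeff, fun t => rfl, refinable_hat, not_symmetricZeros_hat, zak_hat, ?_⟩
  rintro ⟨t₀, h⟩
  have h1 : (⨅ ξ : ℝ, ‖zak hat t₀ ξ‖) ≤ ‖zak hat t₀ (1 / 3)‖ :=
    ciInf_le ⟨0, by rintro _ ⟨ξ, rfl⟩; exact norm_nonneg _⟩ _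
  rw [zak_hat, norm_zero] at h1
  exact absurd h (not_lt.2 h1)

end Pool.Agent.Results.MP_057a77_an.RioulFails
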